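import Pool.Agent.Q326.HF.Fixed

/-!
# Hodge classes on Fermat varieties of a fixed dimension and all degrees

The primitive Hodge classes on the Fermat variety `x_0 ^ m + ... + x_(N-1) ^ m = 0` with an even
number `N` of variables (dimension `N - 2`) are spanned by the lines of the Hodge characters with
`N` entries, one line for each ordered tuple (Shioda). So their number `hodgeCount m N` is the
dimension of the space of the primitive Hodge classes.

The lines of the pairs `{a, -a}`, of unions, and of what remains after removing a pair from an
algebraic character are algebraic by the inductive structure of Fermat varieties (Shioda, Katsura),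
those of the Hodge characters with four entries by the theorem of Lefschetz on `(1, 1)` classes,
those of the standard characters by Aoki and Shioda, and pull-backs from degree `d` to degree `m`
of algebraic characters are algebraic. So all members of `AlgFam m B` are algebraic if the members of
`B` are, and `algCount m N` is a lower bound for the dimension of the space of the algebraic classes.

Let `r` be the number of odd primes of `d`, increased by one if `4` divides `d`, let `e` be the
number of divisors of `d` among `12, 15, 20, 21, 28, 66, 78`, and `bd d = 2 ^ (r - 1) - 1 - e`.

The theorem. Let `N = 2 n` and let `d` be the greatest common divisor of the degree `m` and a number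
`universalDegree N` which depends only on `N`. There are `k ≤ bd d` and `k` Hodge characters of
degree `d` such that
* the pull-backs of these `k` characters generate all Hodge characters of degree `m` with `N`
  entries: the Hodge conjecture for the Fermat variety of degree `m` in `N` variables follows from
  the algebraicity of at most `bd d` classes of degree `d`;
* unconditionally, at least the proportion `2 ^ (-k)` of the primitive Hodge classes of the Fermat
  variety of degree `m` in `N` variables is algebraic.
As `bd d` is bounded in terms of `N`: for each dimension a positive proportion of the Hodge classes,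
independent of the degree, is algebraic. If `bd d = 0` (all primes of `d` in `{2, 3, 5}`, or in
`{2, 3, 7}`, or `d` a power of a prime or twice such a power, or `2 * 3 ^ a * 11 ^ b`,
`2 * 3 ^ a * 13 ^ b`), then all of them are algebraic.
Moreover, the pull-backs of the Hodge characters of degree `d` with the same number of entries
generate, so the Hodge conjecture for the Fermat varieties of one dimension and all degrees follows
from the one of the same dimension and the degree `universalDegree N`.
-/

namespace Pool.Agent.Q326.HF.Draft.FermatEachDimension

open Pool.Agent.H916R2

/-- The smallest family of multisets of residues modulo `m` which contains the members of `B`, the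
Hodge characters with four entries, the pairs and the standard characters, and which is closed
under union and under removing a pair. -/
def AlgFam (m : ℕ) (B : Multiset (ZMod m) → Prop) : Multiset (ZMod m) → Prop :=
  Generated m (fun s => SurfaceCharacter m s ∨ B s)

/-- The number of the ordered `N`-tuples of residues modulo `m` whose multiset is a Hodge
character: the dimension of the space of the primitive Hodge classes on the Fermat variety of degree
`m` in `N` variables. -/
noncomputable def hodgeCount (m N : ℕ) : ℕ :=
  Nat.card {α : Fin N → ZMod m // IsHodge m (Multiset.map α Finset.univ.val)}

/-- The number of the ordered `N`-tuples of residues modulo `m` whose multiset is in the family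
generated by the Hodge characters with four entries, the pairs and the standard characters. -/
noncomputable def algCount (m N : ℕ) : ℕ :=
  Nat.card {α : Fin N → ZMod m // AlgFam m (fun _ => False) (Multiset.map α Finset.univ.val)}

/-- The number of the odd primes of `m`, increased by one if `4` divides `m`. -/
def primeCount (m : ℕ) : ℕ := (m.primeFactors.filter (fun p => p ≠ 2 ∨ 4 ∣ m)).card

/-- The number of the divisors of `m` among `12, 15, 20, 21, 28, 66, 78`. -/
def surfaceCount (m : ℕ) : ℕ :=
  (({12, 15, 20, 21, 28, 66, 78} : Finset ℕ).filter (fun d => d ∣ m)).card

/-- The bound for the number of the missing generators. -/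
def bd (m : ℕ) : ℕ := 2 ^ (primeCount m - 1) - 1 - surfaceCount m

/-- The universal degree for the Hodge characters with `N` entries. -/
def universalDegree (N : ℕ) : ℕ :=
  primorial (12 * N) ^ ((N + 2) * (Nat.clog 2 (12 * N) + 1))

/-- The pull-back of a character of degree `m` to degree `m'`: multiplication by `m' / m`. -/
def pull (m m' : ℕ) (s : Multiset (ZMod m)) : Multiset (ZMod m') :=
  s.map fun b => (((m' / m) * b.val : ℕ) : ZMod m')

theorem result (m : ℕ) (hm : 2 ≤ m) (n : ℕ) (hn : 1 ≤ n) (d : ℕ)
    (hd : d = Nat.gcd m (universalDegree (2 * n))) :
    (∃ k ≤ bd d, ∃ s : Fin k → Multiset (ZMod d), (∀ i, IsHodge d (s i)) ∧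
      (∀ t, IsHodge m t → Multiset.card t = 2 * n →
        AlgFam m (fun x => ∃ i, x = pull d m (s i)) t) ∧
      hodgeCount m (2 * n) ≤ 2 ^ k * algCount m (2 * n)) ∧
    (∀ t, IsHodge m t → Multiset.card t = 2 * n →
      AlgFam m (fun x => ∃ b, IsHodge d b ∧ Multiset.card b = 2 * n ∧ x = pull d m b) t) := by
  refine ⟨?_, fun t ht ht2 => ?_⟩
  · obtain ⟨k, hk, s, hs, h1, h2⟩ :=
      Pool.Agent.Q326.HF.fixed m hm (fun _ => False) (fun _ h => h.elim) n hn d hd
    refine ⟨k, hk, s, hs, fun t ht ht2 => ?_, h1⟩
    refine Pool.Agent.Y2.generated_mono ?_ (h2 t ht ht2)
    rintro x (hx | hx | hx)
    · exact Or.inl hx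
    · exact hx.elim
    · exact Or.inr hx
  · refine Pool.Agent.Y2.generated_mono ?_
      (Pool.Agent.Q326.HF.same_length m hm (fun _ => False) n hn d hd t ht ht2)
    rintro x (hx | hx | hx)
    · exact Or.inl hx
    · exact hx.elim
    · exact Or.inr hx

end Pool.Agent.Q326.HF.Draft.FermatEachDimension
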