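import Pool.Agent.Q326.HF.FixedP

/-!
# Hodge classes on Fermat varieties of a fixed dimension and all degrees

The primitive Hodge classes on the Fermat variety `x_0 ^ m + ... + x_(N-1) ^ m = 0` with an even
number `N` of variables (dimension `N - 2`) are spanned by the lines of the Hodge characters with
`N` entries, one line for each ordered tuple (Shioda). So their number `hodgeCount m N` is the
dimension of the space of the primitive Hodge classes.

The lines of the pairs `{a, -a}`, of unions, and of what remains after removing a pair from an
algebraic character are algebraic by the inductive structure of Fermat varieties (Shioda, Katsura),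
those of the Hodge characters with four entries by the theorem of Lefschetz on `(1, 1)` classes,
those of the standard characters by Aoki and Shioda, and pull-backs from degree `d` to degree `m`
of algebraic characters are algebraic. The curve products are those of the hand-in `FermatFourfolds`:
Hodge characters `b + b'` for which each of `b` and `b'` has three entries (and so lives on the Fermat
curve), or has five entries and the Newton simplex of the toric threefold `W_b`, the quotient of the
Fermat threefold by the kernel of `b`, has empty Fine interior. In the second case `W_b` is uniruled
(Ishii, Batyrev, Miyaoka), so that its `H^3` comes from curves (Bloch, Srinivas); hence the line of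
`b + b'` is algebraic by the theorem of Lefschetz on `(1, 1)` classes. So all members of `AlgFam m B`
are algebraic if the members of `B` are, and `algCount m N` is a lower bound for the dimension of the
space of the algebraic classes.

Let `r` be the number of odd primes of `d`, increased by one if `4` divides `d`, let `e` be the
number of divisors of `d` among `12, 15, 20, 21, 28, 44, 52, 66, 70, 78, 102, 114`, and
`bd d = 2 ^ (r - 1) - 1 - e`.

The theorem. Let `N = 2 n` and let `d` be the greatest common divisor of the degree `m` and a number
`universalDegree N` which depends only on `N`. There are `k ≤ bd d` and `k` Hodge characters of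
degree `d` such that
* the pull-backs of these `k` characters generate all Hodge characters of degree `m` with `N`
  entries: the Hodge conjecture for the Fermat variety of degree `m` in `N` variables follows from
  the algebraicity of at most `bd d` classes of degree `d`;
* unconditionally, at least the proportion `2 ^ (-k)` of the primitive Hodge classes of the Fermat
  variety of degree `m` in `N` variables is algebraic.
As `bd d` is bounded in terms of `N`: for each dimension a positive proportion of the Hodge classes,
independent of the degree, is algebraic. If `bd d = 0` then all of them are algebraic. This is so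
* if all primes of `d` (for instance all primes of `m`) are in `{2, 3, 5}`, `{2, 3, 7}` or
  `{2, 3, p}`, `p = 11` or `13`, `m` even, or in `{2, 5, 7}`, `m` even;
* if `d` is not divisible by `4` and all its primes are in `{2, 3, 5, 7}` (`m` even), or in
  `{2, 3, 17}` or `{2, 3, 19}` (`m` even);
* if `d` is a power of a prime or twice such a power.
(The Fermat variety of odd degree `m` is dominated by the one of degree `2 m`.)
Moreover, the pull-backs of the Hodge characters of degree `d` with the same number of entries
generate, so the Hodge conjecture for the Fermat varieties of one dimension and all degrees follows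
from the one of the same dimension and the degree `universalDegree N`.
-/

namespace Pool.Agent.Q326.HF.Draft2

open Pool.Agent.H916R2 Pool.Agent.Y2.Cv

/-- The smallest family of multisets of residues modulo `m` which contains the members of `B`, the
Hodge characters with four entries, the curve products, the pairs and the standard characters, and
which is closed under union and under removing a pair. -/
def AlgFam (m : ℕ) (B : Multiset (ZMod m) → Prop) : Multiset (ZMod m) → Prop :=
  Generated m (fun s => SurfaceOrCurveProduct m s ∨ B s)

/-- The number of the ordered `N`-tuples of residues modulo `m` whose multiset is a Hodge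
character: the dimension of the space of the primitive Hodge classes on the Fermat variety of degree
`m` in `N` variables. -/
noncomputable def hodgeCount (m N : ℕ) : ℕ :=
  Nat.card {α : Fin N → ZMod m // IsHodge m (Multiset.map α Finset.univ.val)}

/-- The number of the ordered `N`-tuples of residues modulo `m` whose multiset is in the family
generated by the Hodge characters with four entries, the curve products, the pairs and the standard
characters. -/
noncomputable def algCount (m N : ℕ) : ℕ :=
  Nat.card {α : Fin N → ZMod m // AlgFam m (fun _ => False) (Multiset.map α Finset.univ.val)}

/-- The number of the odd primes of `m`, increased by one if `4` divides `m`. -/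
def primeCount (m : ℕ) : ℕ := (m.primeFactors.filter (fun p => p ≠ 2 ∨ 4 ∣ m)).card

/-- The number of the divisors of `m` among twelve levels. -/
def levelCount (m : ℕ) : ℕ :=
  (({12, 15, 20, 21, 28, 44, 52, 66, 70, 78, 102, 114} : Finset ℕ).filter (fun d => d ∣ m)).card

/-- The bound for the number of the missing generators. -/
def bd (m : ℕ) : ℕ := 2 ^ (primeCount m - 1) - 1 - levelCount m

/-- The universal degree for the Hodge characters with `N` entries. -/
def universalDegree (N : ℕ) : ℕ :=
  primorial (12 * N) ^ ((N + 2) * (Nat.clog 2 (12 * N) + 1))

/-- The pull-back of a character of degree `m` to degree `m'`: multiplication by `m' / m`. -/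
def pull (m m' : ℕ) (s : Multiset (ZMod m)) : Multiset (ZMod m') :=
  s.map fun b => (((m' / m) * b.val : ℕ) : ZMod m')

theorem result (m : ℕ) (hm : 2 ≤ m) (n : ℕ) (hn : 1 ≤ n) (d : ℕ)
    (hd : d = Nat.gcd m (universalDegree (2 * n))) :
    (∃ k ≤ bd d, ∃ s : Fin k → Multiset (ZMod d), (∀ i, IsHodge d (s i)) ∧
      (∀ t, IsHodge m t → Multiset.card t = 2 * n →
        AlgFam m (fun x => ∃ i, x = pull d m (s i)) t) ∧
      hodgeCount m (2 * n) ≤ 2 ^ k * algCount m (2 * n)) ∧
    (∀ t, IsHodge m t → Multiset.card t = 2 * n →
      AlgFam m (fun x => ∃ b, IsHodge d b ∧ Multiset.card b = 2 * n ∧ x = pull d m b) t) := by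
  have hmono : ∀ (B : Multiset (ZMod m) → Prop) (t : Multiset (ZMod m)),
      Generated m (Pool.Agent.Q326.HF.sB m (fun x => CurveProduct m x ∨ B x)) t → AlgFam m B t := by
    intro B t h
    refine Pool.Agent.Y2.generated_mono ?_ h
    rintro x (hx | hx | hx)
    · exact Or.inl (Or.inl hx)
    · exact Or.inl (Or.inr hx)
    · exact Or.inr hx
  refine ⟨?_, fun t ht ht2 => hmono _ t
    (Pool.Agent.Q326.HF.same_length m hm (CurveProduct m) n hn d hd t ht ht2)⟩
  obtain ⟨k, hk, s, hs, h1, h2⟩ :=
    Pool.Agent.Q326.HF.fixedP m hm (CurveProduct m) (fun _ h => h.1) (fun _ h => h) n hn d hd
  refine ⟨k, hk, s, hs, fun t ht ht2 => hmono _ t (h2 t ht ht2), h1.trans (le_of_eq ?_)⟩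
  congr 1
  refine Nat.card_congr (Equiv.subtypeEquivRight fun α => ⟨fun h => ?_, fun h => ?_⟩)
  · refine Pool.Agent.Y2.generated_mono ?_ h
    rintro x (hx | hx)
    · exact Or.inl (Or.inl hx)
    · exact Or.inl (Or.inr hx)
  · refine Pool.Agent.Y2.generated_mono ?_ h
    rintro x ((hx | hx) | hx)
    · exact Or.inl hx
    · exact Or.inr hx
    · exact hx.elim

end Pool.Agent.Q326.HF.Draft2
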